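import Pool.Agent.H340R3.TSp.NF

/-! The 4-dimensional algebra `A4` generating the variety, and the relatively free algebra. -/

namespace Pool.Agent.H340R3.TSp

universe u

/-- the 4-dimensional algebra with basis `e₀, e₁, e₂, e₃` and products `e₀ e₃ = e₀`,
`e₁ e₂ = e₀`, all other products of basis elements being zero. -/
def A4 (K : Type u) : Type u := Fin 4 → K

section

variable {K : Type u} [Field K]

instance : AddCommGroup (A4 K) := inferInstanceAs (AddCommGroup (Fin 4 → K))
instance : Module K (A4 K) := inferInstanceAs (Module K (Fin 4 → K))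

instance : Mul (A4 K) := ⟨fun x y => fun i => if i = 0 then x 0 * y 3 + x 1 * y 2 else 0⟩

theorem A4_mul (x y : A4 K) (i : Fin 4) :
    (x * y) i = if i = 0 then x 0 * y 3 + x 1 * y 2 else 0 := rfl

theorem A4_add (x y : A4 K) (i : Fin 4) : (x + y) i = x i + y i := rfl

theorem A4_smul (c : K) (x : A4 K) (i : Fin 4) : (c • x) i = c * x i := rfl

theorem A4_zero (i : Fin 4) : (0 : A4 K) i = 0 := rfl

theorem A4_ext {x y : A4 K} (h : ∀ i, x i = y i) : x = y := funext h

instance : NonUnitalNonAssocRing (A4 K) :=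
  { (inferInstance : AddCommGroup (A4 K)), (inferInstance : Mul (A4 K)) with
    left_distrib := fun a b c => by
      apply A4_ext; intro i; simp only [A4_mul, A4_add]; split_ifs <;> ring
    right_distrib := fun a b c => by
      apply A4_ext; intro i; simp only [A4_mul, A4_add]; split_ifs <;> ring
    zero_mul := fun a => by
      apply A4_ext; intro i; simp only [A4_mul, A4_zero]; split_ifs <;> ring
    mul_zero := fun a => by
      apply A4_ext; intro i; simp only [A4_mul, A4_zero]; split_ifs <;> ring }

instance : IsScalarTower K (A4 K) (A4 K) :=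
  ⟨fun c a b => by
    apply A4_ext; intro i; simp only [smul_eq_mul, A4_mul, A4_smul]; split_ifs <;> ring⟩

instance : SMulCommClass K (A4 K) (A4 K) :=
  ⟨fun c a b => by
    apply A4_ext; intro i; simp only [smul_eq_mul, A4_mul, A4_smul]; split_ifs <;> ring⟩

theorem A4_good : Good (A4 K) := by
  constructor
  · intro x y z
    apply A4_ext; intro i; simp only [A4_mul, A4_zero]
    norm_num
    intro _ 
    have h3 : (3 : Fin 4) ≠ 0 := by decide
    have h2 : (2 : Fin 4) ≠ 0 := by decide
    simp [h3, h2]
  · intro x y z w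
    apply A4_ext; intro i; simp only [A4_mul]
    split_ifs <;> simp_all <;> ring

/-- the coordinate functional -/
def coord (i : Fin 4) : A4 K →ₗ[K] K :=
  { toFun := fun x => x i
    map_add' := fun _ _ => rfl
    map_smul' := fun _ _ => rfl }

theorem lprodA (l : List (A4 K)) : ∀ y : A4 K, (∀ i, i ≠ 0 → y i = 0) →
    (lprod y l) 0 = y 0 * (l.map fun z => z 3).prod ∧ ∀ i, i ≠ 0 → (lprod y l) i = 0 := by
  induction l with
  | nil => intro y hy; simp [lprod]; exact hy
  | cons a l ih =>
    intro y hy
    have h1 : ∀ i, i ≠ 0 → (y * a) i = 0 := by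
      intro i hi; rw [A4_mul, if_neg hi]
    obtain ⟨h2, h3⟩ := ih (y * a) h1
    refine ⟨?_, h3⟩
    have : lprod y (a :: l) = lprod (y * a) l := rfl
    rw [this, h2, A4_mul, if_pos rfl, hy 1 (by decide)]
    simp
    ring

theorem val_A4 (a : ℕ → A4 K) (i j : ℕ) (M : Multiset ℕ) :
    (val a (Sum.inr (i, j, M))) 0 =
      (a i 0 * a j 3 + a i 1 * a j 2) * (M.map fun k => a k 3).prod ∧
    ∀ c, c ≠ 0 → (val a (Sum.inr (i, j, M))) c = 0 := by
  have h := lprodA (M.toList.map a) (a i * a j) (fun c hc => by rw [A4_mul, if_neg hc])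
  rw [val]
  refine ⟨?_, h.2⟩
  rw [h.1, A4_mul, if_pos rfl, List.map_map]
  congr 1
  have : (M.map fun k => a k 3) = ((M.toList.map fun k => a k 3 : List K) : Multiset K) := by
    conv_lhs => rw [← Multiset.coe_toList M]
    rw [Multiset.map_coe]
  rw [this, Multiset.prod_coe]
  rfl

/-! ### injectivity -/

theorem coeff_inl (g : NF K) (h : ∀ a : ℕ → A4 K, psi K a g = 0) (i : ℕ) :
    (show Mon →₀ K from g) (Sum.inl i) = 0 := by
  classical
  let a : ℕ → A4 K := fun k c => if k = i ∧ c = 1 then 1 else 0
  have h1 : (coord 1).comp (psi K a) = (Finsupp.lapply (Sum.inl i) : (Mon →₀ K) →ₗ[K] K) := by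
    apply hom_ext_bas
    intro m
    rw [LinearMap.comp_apply, psi_bas]
    match m with
    | Sum.inl k =>
      show a k 1 = (Finsupp.single (Sum.inl k : Mon) (1 : K) : Mon →₀ K) (Sum.inl i)
      rw [Finsupp.single_apply]
      by_cases hk : k = i
      · simp [a, hk]
      · simp [a, hk]
    | Sum.inr (k, l, M) =>
      show (val a (Sum.inr (k, l, M))) 1 =
        (Finsupp.single (Sum.inr (k, l, M) : Mon) (1 : K) : Mon →₀ K) (Sum.inl i)
      rw [(val_A4 a k l M).2 1 (by decide), Finsupp.single_apply, if_neg (by simp)]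
  have h2 := congrArg (fun f => f g) h1
  simp only [LinearMap.comp_apply, h a, map_zero] at h2
  exact h2.symm

/-- exponent multiset -/
def expo (i j : ℕ) (M : Multiset ℕ) : Multiset (Fin 3 × ℕ) :=
  (0, i) ::ₘ (1, j) ::ₘ M.map (fun k => ((2 : Fin 3), k))

theorem expo_inj {i j i' j' : ℕ} {M M' : Multiset ℕ} (h : expo i j M = expo i' j' M') :
    i = i' ∧ j = j' ∧ M = M' := by
  have h0 := congrArg (Multiset.filter fun p => p.1 = 0) h
  have h1 := congrArg (Multiset.filter fun p => p.1 = 1) h
  have h2 := congrArg (Multiset.filter fun p => p.1 = 2) h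
  have e2 : ∀ M : Multiset ℕ, (M.map (fun k => ((2 : Fin 3), k))).filter (fun p => p.1 = 2) =
      M.map (fun k => ((2 : Fin 3), k)) := by
    intro M; rw [Multiset.filter_eq_self]; intro a ha
    rw [Multiset.mem_map] at ha; obtain ⟨k, _, rfl⟩ := ha; rfl
  have e0 : ∀ M : Multiset ℕ, (M.map (fun k => ((2 : Fin 3), k))).filter (fun p => p.1 = 0) = 0 := by
    intro M; rw [Multiset.filter_eq_nil]; intro a ha
    rw [Multiset.mem_map] at ha; obtain ⟨k, _, rfl⟩ := ha
    show ¬ ((2 : Fin 3) = 0)
    decide
  have e1 : ∀ M : Multiset ℕ, (M.map (fun k => ((2 : Fin 3), k))).filter (fun p => p.1 = 1) = 0 := by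
    intro M; rw [Multiset.filter_eq_nil]; intro a ha
    rw [Multiset.mem_map] at ha; obtain ⟨k, _, rfl⟩ := ha
    show ¬ ((2 : Fin 3) = 1)
    decide
  simp only [expo, Multiset.filter_cons, e0, e1, e2] at h0 h1 h2
  simp at h0 h1 h2
  refine ⟨h0, h1, ?_⟩
  exact Multiset.map_injective (fun a b hab => by simpa using hab) h2

/-- monomial of a multiset -/
noncomputable def mm (s : Multiset (Fin 3 × ℕ)) : MvPolynomial (Fin 3 × ℕ) K :=
  MvPolynomial.monomial (Multiset.toFinsupp s) 1

theorem mm_eval (s : Multiset (Fin 3 × ℕ)) (v : Fin 3 × ℕ → K) :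
    MvPolynomial.eval v (mm s : MvPolynomial (Fin 3 × ℕ) K) = (s.map v).prod := by
  induction s using Multiset.induction_on with
  | empty => simp [mm]
  | cons a s ih =>
    have : (mm (a ::ₘ s) : MvPolynomial (Fin 3 × ℕ) K) = MvPolynomial.X a * mm s := by
      rw [mm, mm, ← Multiset.singleton_add, map_add, Multiset.toFinsupp_singleton,
        MvPolynomial.X, MvPolynomial.monomial_mul, one_mul]
    rw [this, map_mul, ih, MvPolynomial.eval_X, Multiset.map_cons, Multiset.prod_cons]

/-- the polynomial attached to an element -/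
noncomputable def Phi (K : Type u) [Field K] : NF K →ₗ[K] MvPolynomial (Fin 3 × ℕ) K :=
  (Finsupp.linearCombination K (fun m : Mon => match m with
    | Sum.inl _ => (0 : MvPolynomial (Fin 3 × ℕ) K)
    | Sum.inr (i, j, M) => mm (expo i j M)) : (Mon →₀ K) →ₗ[K] MvPolynomial (Fin 3 × ℕ) K)

theorem Phi_bas_inl (i : ℕ) : Phi K (bas (Sum.inl i)) = 0 := by
  rw [Phi, bas]
  erw [Finsupp.linearCombination_single, one_smul]

theorem Phi_bas_inr (i j : ℕ) (M : Multiset ℕ) :
    Phi K (bas (Sum.inr (i, j, M))) = mm (expo i j M) := by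
  rw [Phi, bas]
  erw [Finsupp.linearCombination_single, one_smul]

theorem hom_ext_bas' {B : Type*} [AddCommGroup B] [Module K B] {f g : NF K →ₗ[K] B}
    (h : ∀ m, f (bas m) = g (bas m)) : f = g := by
  apply LinearMap.ext
  intro a
  refine NF_induction (P := fun a => f a = g a) ?_ ?_ ?_ a
  · simp
  · intro a b ha hb; simp only [map_add, ha, hb]
  · intro c m; simp only [map_smul, h]

theorem coeff_inr [Infinite K] (g : NF K) (h : ∀ a : ℕ → A4 K, psi K a g = 0)
    (i j : ℕ) (M : Multiset ℕ) : (show Mon →₀ K from g) (Sum.inr (i, j, M)) = 0 := by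
  classical
  have h0 : Phi K g = 0 := by
    apply MvPolynomial.funext
    intro v
    let a : ℕ → A4 K := fun k c =>
      if c = 1 then v (0, k) else if c = 2 then v (1, k) else if c = 3 then v (2, k) else 0
    have h1 : (coord 0).comp (psi K a) = (MvPolynomial.aeval v).toLinearMap.comp (Phi K) := by
      apply hom_ext_bas'
      intro m
      rw [LinearMap.comp_apply, LinearMap.comp_apply, psi_bas]
      match m with
      | Sum.inl k =>
        rw [Phi_bas_inl, map_zero]
        show a k 0 = 0
        simp [a]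
      | Sum.inr (k, l, N) =>
        rw [Phi_bas_inr]
        show (val a (Sum.inr (k, l, N))) 0 = MvPolynomial.aeval v (mm (expo k l N))
        rw [(val_A4 a k l N).1, MvPolynomial.aeval_def, MvPolynomial.eval₂_eq_eval_map]
        simp only [Algebra.algebraMap_self, MvPolynomial.map_id]
        rw [mm_eval, expo]
        simp only [Multiset.map_cons, Multiset.prod_cons, Multiset.map_map, Function.comp_def]
        have e1 : a k 0 = 0 := by simp [a]
        have e2 : a k 1 = v (0, k) := by simp [a]
        have e3 : a l 2 = v (1, l) := by simp [a]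
        have e4 : ∀ k, a k 3 = v (2, k) := by intro k; simp [a]
        simp only [e1, e2, e3, e4]
        ring
    have h2 := congrArg (fun f => f g) h1
    simp only [LinearMap.comp_apply, h a, map_zero] at h2
    rw [map_zero]
    have h3 : MvPolynomial.aeval v (Phi K g) = 0 := h2.symm
    rw [MvPolynomial.aeval_def, MvPolynomial.eval₂_eq_eval_map] at h3
    simpa using h3
  have h1 : (MvPolynomial.lcoeff K (Multiset.toFinsupp (expo i j M))).comp (Phi K) =
      (Finsupp.lapply (Sum.inr (i, j, M)) : (Mon →₀ K) →ₗ[K] K) := by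
    apply hom_ext_bas
    intro m
    rw [LinearMap.comp_apply, MvPolynomial.lcoeff_apply]
    match m with
    | Sum.inl k =>
      rw [Phi_bas_inl, MvPolynomial.coeff_zero]
      show (0 : K) = (Finsupp.single (Sum.inl k : Mon) (1 : K) : Mon →₀ K) (Sum.inr (i, j, M))
      rw [Finsupp.single_apply, if_neg (by simp)]
    | Sum.inr (k, l, N) =>
      rw [Phi_bas_inr, mm, MvPolynomial.coeff_monomial]
      show _ = (Finsupp.single (Sum.inr (k, l, N) : Mon) (1 : K) : Mon →₀ K) (Sum.inr (i, j, M))
      rw [Finsupp.single_apply]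
      by_cases hk : (k, l, N) = (i, j, M)
      · rw [if_pos, if_pos]
        · rw [hk]
        · simp only [Prod.mk.injEq] at hk
          obtain ⟨rfl, rfl, rfl⟩ := hk; rfl
      · rw [if_neg, if_neg]
        · intro h; exact hk (Sum.inr.inj h)
        · intro h
          apply hk
          obtain ⟨h1, h2, h3⟩ := expo_inj (Multiset.toFinsupp.injective h)
          rw [h1, h2, h3]
  have h2 := congrArg (fun f => f g) h1
  simp only [LinearMap.comp_apply, h0, map_zero] at h2
  exact h2.symm

theorem inj [Infinite K] (g : NF K) (h : ∀ a : ℕ → A4 K, psi K a g = 0) : g = 0 := by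
  apply Finsupp.ext
  intro m
  match m with
  | Sum.inl i => exact coeff_inl g h i
  | Sum.inr (i, j, M) => exact coeff_inr g h i j M

end

end Pool.Agent.H340R3.TSp
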