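import Mathlib

/-! Varieties of (nonassociative) algebras, relatively free algebras, T-spaces. -/

namespace Pool.Agent.H340R3.TSp

universe u

/-- The absolutely free nonassociative `K`-algebra (without unit) on `x 0, x 1, x 2, ...`. -/
abbrev FreeAlg (K : Type u) [Field K] := FreeNonUnitalNonAssocAlgebra K ℕ

section Defs

variable {K : Type u} [Field K]

/-- The algebra `A` satisfies every identity `f ∈ I`: all substitutions of elements of `A` for the
variables of `f` give `0`. The variety defined by `I` is the class of all such algebras. -/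
def Satisfies (I : Set (FreeAlg K)) (A : Type u) [NonUnitalNonAssocRing A] [Module K A]
    [IsScalarTower K A A] [SMulCommClass K A A] : Prop :=
  ∀ f ∈ I, ∀ a : ℕ → A, FreeNonUnitalNonAssocAlgebra.lift K a f = 0

/-- The set of all identities of the algebra `A`. -/
def Ident (K : Type u) [Field K] (A : Type u) [NonUnitalNonAssocRing A] [Module K A]
    [IsScalarTower K A A] [SMulCommClass K A A] : Set (FreeAlg K) :=
  {f | ∀ a : ℕ → A, FreeNonUnitalNonAssocAlgebra.lift K a f = 0}

/-- `F` is the free algebra, with free generators `x 0, x 1, ...`, of the variety defined by `I`. -/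
def IsRelFree (I : Set (FreeAlg K)) {F : Type u} [NonUnitalNonAssocRing F] [Module K F]
    [IsScalarTower K F F] [SMulCommClass K F F] (x : ℕ → F) : Prop :=
  Satisfies I F ∧
  ∀ (A : Type u) [NonUnitalNonAssocRing A] [Module K A] [IsScalarTower K A A]
    [SMulCommClass K A A], Satisfies I A → ∀ a : ℕ → A, ∃! φ : F →ₙₐ[K] A, ∀ i, φ (x i) = a i

/-- `F(d)`: the subalgebra generated by the first `d` free generators. -/
def Fd (K : Type u) [Field K] {F : Type u} [NonUnitalNonAssocRing F] [Module K F]
    [IsScalarTower K F F] [SMulCommClass K F F] (x : ℕ → F) (d : ℕ) : NonUnitalSubalgebra K F :=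
  NonUnitalAlgebra.adjoin K {y | ∃ i < d, x i = y}

/-- The variety defined by `I`, with free algebra `F`, is generated as a variety by the free
algebra `F(r)` on finitely many free generators: every identity of `F(r)` is an identity of all
algebras of the variety. -/
def HasFiniteBaseRank (I : Set (FreeAlg K)) {F : Type u} [NonUnitalNonAssocRing F] [Module K F]
    [IsScalarTower K F F] [SMulCommClass K F F] (x : ℕ → F) : Prop :=
  ∃ r : ℕ, ∀ f : FreeAlg K, Satisfies {f} (Fd K x r) →
    ∀ (A : Type u) [NonUnitalNonAssocRing A] [Module K A] [IsScalarTower K A A]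
      [SMulCommClass K A A], Satisfies I A → Satisfies {f} A

/-- The variety defined by `I` is Specht: each of its subvarieties can be defined by a finite set
of identities. -/
def IsSpecht (I : Set (FreeAlg K)) : Prop :=
  ∀ J : Set (FreeAlg K), I ⊆ J → ∃ S : Finset (FreeAlg K),
    ∀ (A : Type u) [NonUnitalNonAssocRing A] [Module K A] [IsScalarTower K A A]
      [SMulCommClass K A A], Satisfies J A ↔ Satisfies (S : Set (FreeAlg K)) A

/-- The span of all elements obtained from elements of `S` by substituting arbitrary elements of
`F` for the free generators, that is, by applying endomorphisms of the relatively free algebra. -/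
def bar (K : Type u) [Field K] {F : Type u} [NonUnitalNonAssocRing F] [Module K F]
    [IsScalarTower K F F] [SMulCommClass K F F] (S : Set F) : Submodule K F :=
  Submodule.span K {y | ∃ f ∈ S, ∃ φ : F →ₙₐ[K] F, φ f = y}

/-- `V` is a T-space in `F(d)`. -/
def IsTSpace {F : Type u} [NonUnitalNonAssocRing F] [Module K F]
    [IsScalarTower K F F] [SMulCommClass K F F] (x : ℕ → F) (d : ℕ) (V : Submodule K F) : Prop :=
  V ≤ (Fd K x d).toSubmodule ∧ V = bar K (V : Set F) ⊓ (Fd K x d).toSubmodule

/-- The T-space `V` in `F(d)` has a finite base. -/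
def HasFiniteBase {F : Type u} [NonUnitalNonAssocRing F] [Module K F]
    [IsScalarTower K F F] [SMulCommClass K F F] (x : ℕ → F) (d : ℕ) (V : Submodule K F) : Prop :=
  ∃ S : Finset F, (S : Set F) ⊆ V ∧ V = bar K (S : Set F) ⊓ (Fd K x d).toSubmodule

end Defs

end Pool.Agent.H340R3.TSp
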