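import Pool.Agent.H340R3.TSp.Defs

/-! The algebra with basis `x i` and `x i x j x M` (left normed, `M` a multiset): the free algebra of
the variety `x(yz) = 0`, `((xy)z)w = ((xy)w)z`. -/

namespace Pool.Agent.H340R3.TSp

universe u

/-- normal monomials: variables `v i` and `w i j M` standing for `((x i x j) x M₁) x M₂ ...`. -/
abbrev Mon := ℕ ⊕ (ℕ × ℕ × Multiset ℕ)

/-- product of normal monomials (`none` is zero). -/
def mulMon : Mon → Mon → Option Mon
  | Sum.inl i, Sum.inl j => some (Sum.inr (i, j, 0))
  | Sum.inr (i, j, M), Sum.inl k => some (Sum.inr (i, j, k ::ₘ M))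
  | _, Sum.inr _ => none

section

variable (K : Type u) [Field K]

/-- the algebra with basis `Mon` -/
def NF : Type u := Mon →₀ K

noncomputable instance : AddCommGroup (NF K) := inferInstanceAs (AddCommGroup (Mon →₀ K))
noncomputable instance : Module K (NF K) := inferInstanceAs (Module K (Mon →₀ K))

variable {K}

/-- value of an optional monomial in `NF` -/
noncomputable def bas (m : Mon) : NF K := (Finsupp.single m (1 : K) : Mon →₀ K)

noncomputable def obas : Option Mon → NF K
  | none => 0
  | some m => bas m

/-- the bilinear product -/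
noncomputable def mulL : NF K →ₗ[K] NF K →ₗ[K] NF K :=
  (Finsupp.linearCombination K (fun m : Mon =>
    (Finsupp.linearCombination K (fun m' : Mon => (obas (mulMon m m') : NF K)) :
      (Mon →₀ K) →ₗ[K] NF K)) : (Mon →₀ K) →ₗ[K] ((Mon →₀ K) →ₗ[K] NF K))

noncomputable instance : Mul (NF K) := ⟨fun a b => mulL a b⟩

theorem mul_def (a b : NF K) : a * b = mulL a b := rfl

noncomputable instance : NonUnitalNonAssocRing (NF K) :=
  { (inferInstance : AddCommGroup (NF K)), (inferInstance : Mul (NF K)) with
    left_distrib := fun a b c => by simp only [mul_def, map_add]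
    right_distrib := fun a b c => by simp only [mul_def, map_add, LinearMap.add_apply]
    zero_mul := fun a => by simp only [mul_def, map_zero, LinearMap.zero_apply]
    mul_zero := fun a => by simp only [mul_def, map_zero] }

instance : IsScalarTower K (NF K) (NF K) :=
  ⟨fun c a b => by simp only [smul_eq_mul, mul_def, map_smul, LinearMap.smul_apply]⟩

instance : SMulCommClass K (NF K) (NF K) :=
  ⟨fun c a b => by simp only [smul_eq_mul, mul_def, map_smul]⟩

theorem bas_mul_bas (m m' : Mon) : (bas m * bas m' : NF K) = obas (mulMon m m') := by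
  rw [mul_def, mulL, bas, bas]
  erw [Finsupp.linearCombination_single, one_smul, Finsupp.linearCombination_single, one_smul]

/-- extend a function on the basis linearly -/
noncomputable def ext {B : Type u} [AddCommGroup B] [Module K B] (f : Mon → B) : NF K →ₗ[K] B :=
  (Finsupp.linearCombination K f : (Mon →₀ K) →ₗ[K] B)

@[simp]
theorem ext_bas {B : Type u} [AddCommGroup B] [Module K B] (f : Mon → B) (m : Mon) :
    ext f (bas m : NF K) = f m := by
  rw [ext, bas]
  erw [Finsupp.linearCombination_single, one_smul]

theorem NF_induction {P : NF K → Prop} (h0 : P 0) (hadd : ∀ a b, P a → P b → P (a + b))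
    (hb : ∀ (c : K) m, P (c • bas m)) (a : NF K) : P a := by
  refine Finsupp.induction_linear (motive := P) a h0 (fun f g hf hg => hadd f g hf hg) ?_
  intro m c
  have := hb c m
  rw [bas] at this
  erw [Finsupp.smul_single, smul_eq_mul, mul_one] at this
  exact this

theorem hom_ext_bas {B : Type u} [AddCommGroup B] [Module K B] {f g : NF K →ₗ[K] B}
    (h : ∀ m, f (bas m) = g (bas m)) : f = g := by
  apply LinearMap.ext
  intro a
  refine NF_induction (P := fun a => f a = g a) ?_ ?_ ?_ a
  · simp
  · intro a b ha hb; simp only [map_add, ha, hb]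
  · intro c m; simp only [map_smul, h]

/-- a linear map which is multiplicative on the basis is multiplicative -/
theorem map_mul_of_bas {B : Type u} [NonUnitalNonAssocRing B] [Module K B] [IsScalarTower K B B]
    [SMulCommClass K B B] (f : NF K →ₗ[K] B)
    (h : ∀ m m', f (bas m * bas m') = f (bas m) * f (bas m')) (a b : NF K) :
    f (a * b) = f a * f b := by
  refine NF_induction (P := fun a => f (a * b) = f a * f b) ?_ ?_ ?_ a
  · simp
  · intro a a' ha hb; simp only [map_add, add_mul, ha, hb]
  · intro c m
    refine NF_induction (P := fun b => f ((c • bas m) * b) = f (c • bas m) * f b) ?_ ?_ ?_ b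
    · simp
    · intro a a' ha hb; simp only [map_add, mul_add, ha, hb]
    · intro c' m'
      rw [smul_mul_assoc, mul_smul_comm, map_smul, map_smul, map_smul, map_smul, h,
        smul_mul_assoc, mul_smul_comm]

end

/-! ### values of normal monomials in an algebra -/

section Val

variable {K : Type u} [Field K] {B : Type u} [NonUnitalNonAssocRing B] [Module K B]
  [IsScalarTower K B B] [SMulCommClass K B B]

/-- the two identities `x(yz) = 0` and `((xy)z)w = ((xy)w)z` -/
def Good (B : Type u) [NonUnitalNonAssocRing B] : Prop :=
  (∀ x y z : B, x * (y * z) = 0) ∧ ∀ x y z w : B, ((x * y) * z) * w = ((x * y) * w) * z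

/-- left normed product -/
def lprod (b : B) (l : List B) : B := l.foldl (· * ·) b

theorem lprod_perm (hB : Good B) {l l' : List B} (h : l.Perm l') :
    ∀ y z : B, lprod (y * z) l = lprod (y * z) l' := by
  induction h with
  | nil => intro y z; rfl
  | cons a h ih => intro y z; exact ih (y * z) a
  | swap a b l => intro y z; simp only [lprod, List.foldl_cons]; rw [hB.2]
  | trans h1 h2 ih1 ih2 => intro y z; rw [ih1, ih2]

theorem lprod_append (b c : B) (l : List B) : lprod b (l ++ [c]) = lprod b l * c := by
  simp [lprod, List.foldl_append]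

theorem lprod_is_mul (y z : B) (l : List B) : ∃ y' z', lprod (y * z) l = y' * z' := by
  induction l generalizing y z with
  | nil => exact ⟨y, z, rfl⟩
  | cons a l ih => exact ih (y * z) a

/-- value of a normal monomial under `x i ↦ a i` -/
noncomputable def val (a : ℕ → B) : Mon → B
  | Sum.inl i => a i
  | Sum.inr (i, j, M) => lprod (a i * a j) (M.toList.map a)

theorem val_cons (hB : Good B) (a : ℕ → B) (i j k : ℕ) (M : Multiset ℕ) :
    val a (Sum.inr (i, j, k ::ₘ M)) = val a (Sum.inr (i, j, M)) * a k := by
  rw [val, val, ← lprod_append]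
  apply lprod_perm hB
  have h1 : (k ::ₘ M).toList.Perm (M.toList ++ [k]) := by
    rw [← Multiset.coe_eq_coe, Multiset.coe_toList, ← Multiset.coe_add, Multiset.coe_toList]
    simp [add_comm M]
  have := h1.map a
  simpa using this

/-- `x i ↦ a i` extended to a linear map on `NF` -/
noncomputable def psi (K : Type u) [Field K] {B : Type u} [NonUnitalNonAssocRing B] [Module K B]
    (a : ℕ → B) : NF K →ₗ[K] B := ext (val a)

theorem psi_bas (a : ℕ → B) (m : Mon) : psi K a (bas m) = val a m := ext_bas _ _

theorem psi_obas_mul (hB : Good B) (a : ℕ → B) (m m' : Mon) :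
    psi K a (obas (mulMon m m')) = val a m * val a m' := by
  match m, m' with
  | Sum.inl i, Sum.inl j =>
    rw [mulMon, obas, psi_bas]
    simp [val, lprod]
  | Sum.inr (i, j, M), Sum.inl k =>
    rw [mulMon, obas, psi_bas, val_cons hB]
    rfl
  | m, Sum.inr (i, j, M) =>
    rw [mulMon, obas, map_zero]
    obtain ⟨y, z, h⟩ := lprod_is_mul (a i) (a j) (M.toList.map a)
    rw [val, h, hB.1]

theorem psi_mul (hB : Good B) (a : ℕ → B) (x y : NF K) :
    psi K a (x * y) = psi K a x * psi K a y := by
  apply map_mul_of_bas
  intro m m'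
  rw [bas_mul_bas, psi_obas_mul hB, psi_bas, psi_bas]

/-- the homomorphism `NF → B` -/
noncomputable def psiHom (hB : Good B) (a : ℕ → B) : NF K →ₙₐ[K] B :=
  { psi K a with
    toFun := psi K a
    map_zero' := map_zero _
    map_mul' := psi_mul hB a
    map_smul' := fun c x => map_smul _ c x }

theorem psiHom_apply (hB : Good B) (a : ℕ → B) (x : NF K) : psiHom hB a x = psi K a x := rfl

/-- the free generators -/
noncomputable def X (K : Type u) [Field K] (i : ℕ) : NF K := bas (Sum.inl i)

theorem psi_X (a : ℕ → B) (i : ℕ) : psi K a (X K i) = a i := by rw [X, psi_bas, val]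

theorem NF_good : Good (NF K) := by
  constructor
  · intro x y z
    have h1 : ∀ m m' : Mon, ∀ x : NF K, x * (bas m * bas m') = 0 := by
      intro m m' x
      rw [bas_mul_bas]
      refine NF_induction (P := fun x => x * obas (mulMon m m') = 0) ?_ ?_ ?_ x
      · simp
      · intro a b ha hb; rw [add_mul, ha, hb, add_zero]
      · intro c m''
        rw [smul_mul_assoc]
        match m, m' with
        | Sum.inl i, Sum.inl j => rw [mulMon, obas, bas_mul_bas]; simp [mulMon, obas]
        | Sum.inr (i, j, M), Sum.inl k => rw [mulMon, obas, bas_mul_bas]; simp [mulMon, obas]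
        | m, Sum.inr (i, j, M) => rw [mulMon, obas]; simp
    refine NF_induction (P := fun y => x * (y * z) = 0) ?_ ?_ ?_ y
    · simp
    · intro a b ha hb; rw [add_mul, mul_add, ha, hb, add_zero]
    · intro c m
      refine NF_induction (P := fun z => x * (c • bas m * z) = 0) ?_ ?_ ?_ z
      · simp
      · intro a b ha hb; rw [mul_add, mul_add, ha, hb, add_zero]
      · intro c' m'
        rw [smul_mul_assoc, mul_smul_comm, mul_smul_comm, mul_smul_comm, h1, smul_zero, smul_zero]
  · intro x y z w
    have key : ∀ m m1 m2 m3 : Mon, ((bas m * bas m1) * bas m2) * bas m3 =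
        ((bas m * bas m1) * bas m3) * (bas m2 : NF K) := by
      intro m m1 m2 m3
      match m, m1, m2, m3 with
      | Sum.inl i, Sum.inl j, Sum.inl k, Sum.inl l =>
        simp only [bas_mul_bas, mulMon, obas]
        rw [Multiset.cons_swap]
      | Sum.inr (a, b, M), Sum.inl j, Sum.inl k, Sum.inl l =>
        simp only [bas_mul_bas, mulMon, obas]
        rw [Multiset.cons_swap]
      | m, Sum.inr _, m2, m3 =>
        simp [bas_mul_bas, mulMon, obas]
      | Sum.inl i, Sum.inl j, Sum.inr _, Sum.inl l =>
        simp [bas_mul_bas, mulMon, obas]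
      | Sum.inl i, Sum.inl j, Sum.inl k, Sum.inr _ =>
        simp [bas_mul_bas, mulMon, obas]
      | Sum.inl i, Sum.inl j, Sum.inr _, Sum.inr _ =>
        simp [bas_mul_bas, mulMon, obas]
      | Sum.inr _, Sum.inl j, Sum.inr _, Sum.inl l =>
        simp [bas_mul_bas, mulMon, obas]
      | Sum.inr _, Sum.inl j, Sum.inl k, Sum.inr _ =>
        simp [bas_mul_bas, mulMon, obas]
      | Sum.inr _, Sum.inl j, Sum.inr _, Sum.inr _ =>
        simp [bas_mul_bas, mulMon, obas]
    refine NF_induction (P := fun x => x * y * z * w = x * y * w * z) ?_ ?_ ?_ x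
    · simp
    · intro a b ha hb; simp only [add_mul, ha, hb]
    · intro c m
      refine NF_induction (P := fun y => c • bas m * y * z * w = c • bas m * y * w * z) ?_ ?_ ?_ y
      · simp
      · intro a b ha hb; simp only [mul_add, add_mul, ha, hb]
      · intro c1 m1
        refine NF_induction (P := fun z => c • bas m * c1 • bas m1 * z * w =
          c • bas m * c1 • bas m1 * w * z) ?_ ?_ ?_ z
        · simp
        · intro a b ha hb; simp only [mul_add, add_mul, ha, hb]
        · intro c2 m2
          refine NF_induction (P := fun w => c • bas m * c1 • bas m1 * c2 • bas m2 * w =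
            c • bas m * c1 • bas m1 * w * c2 • bas m2) ?_ ?_ ?_ w
          · simp
          · intro a b ha hb; simp only [mul_add, add_mul, ha, hb]
          · intro c3 m3
            simp only [smul_mul_assoc, mul_smul_comm, key]
            rw [smul_comm c3 c2]

end Val

end Pool.Agent.H340R3.TSp
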