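import Pool.Agent.H340R3.TSp.Alg

/-! `NF` is the relatively free algebra of the variety generated by `A4`; base rank. -/

namespace Pool.Agent.H340R3.TSp

universe u

open FreeNonUnitalNonAssocAlgebra (lift)

section

variable {K : Type u} [Field K]

theorem lift_comp {A B : Type u} [NonUnitalNonAssocRing A] [Module K A] [IsScalarTower K A A]
    [SMulCommClass K A A] [NonUnitalNonAssocRing B] [Module K B] [IsScalarTower K B B]
    [SMulCommClass K B B] (φ : A →ₙₐ[K] B) (a : ℕ → A) (f : FreeAlg K) :
    φ (lift K a f) = lift K (fun i => φ (a i)) f := by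
  have : φ.comp (lift K a) = lift K (fun i => φ (a i)) := by
    apply FreeNonUnitalNonAssocAlgebra.hom_ext
    intro i
    simp
  rw [← this]; rfl

/-- variable in the free algebra -/
noncomputable def fv (K : Type u) [Field K] (i : ℕ) : FreeAlg K :=
  FreeNonUnitalNonAssocAlgebra.of K i

theorem lift_fv {A : Type u} [NonUnitalNonAssocRing A] [Module K A] [IsScalarTower K A A]
    [SMulCommClass K A A] (a : ℕ → A) (i : ℕ) : lift K a (fv K i) = a i := by
  simp [fv]

/-- `x(yz)` -/
noncomputable def id1 (K : Type u) [Field K] : FreeAlg K := fv K 0 * (fv K 1 * fv K 2)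

/-- `((xy)z)w - ((xy)w)z` -/
noncomputable def id2 (K : Type u) [Field K] : FreeAlg K :=
  ((fv K 0 * fv K 1) * fv K 2) * fv K 3 - ((fv K 0 * fv K 1) * fv K 3) * fv K 2

theorem lift_id1 {A : Type u} [NonUnitalNonAssocRing A] [Module K A] [IsScalarTower K A A]
    [SMulCommClass K A A] (a : ℕ → A) : lift K a (id1 K) = a 0 * (a 1 * a 2) := by
  simp only [id1, map_mul, lift_fv]

theorem lift_id2 {A : Type u} [NonUnitalNonAssocRing A] [Module K A] [IsScalarTower K A A]
    [SMulCommClass K A A] (a : ℕ → A) :
    lift K a (id2 K) = a 0 * a 1 * a 2 * a 3 - a 0 * a 1 * a 3 * a 2 := by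
  simp only [id2, map_sub, map_mul, lift_fv]

theorem good_of {A : Type u} [NonUnitalNonAssocRing A] [Module K A] [IsScalarTower K A A]
    [SMulCommClass K A A] (h : Satisfies {id1 K, id2 K} A) : Good A := by
  constructor
  · intro x y z
    have := h (id1 K) (by simp) (fun n => if n = 0 then x else if n = 1 then y else z)
    rw [lift_id1] at this
    simpa using this
  · intro x y z w
    have := h (id2 K) (by simp)
      (fun n => if n = 0 then x else if n = 1 then y else if n = 2 then z else w)
    rw [lift_id2] at this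
    simpa [sub_eq_zero] using this

theorem good_iff {A : Type u} [NonUnitalNonAssocRing A] [Module K A] [IsScalarTower K A A]
    [SMulCommClass K A A] : Satisfies {id1 K, id2 K} A ↔ Good A := by
  refine ⟨good_of, fun h => ?_⟩
  intro f hf a
  simp only [Set.mem_insert_iff, Set.mem_singleton_iff] at hf
  rcases hf with rfl | rfl
  · rw [lift_id1, h.1]
  · rw [lift_id2, h.2, sub_self]

theorem sub_ident : ({id1 K, id2 K} : Set (FreeAlg K)) ⊆ Ident K (A4 K) := by
  intro f hf a
  exact good_iff.2 A4_good f hf a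

theorem good_of_ident {A : Type u} [NonUnitalNonAssocRing A] [Module K A] [IsScalarTower K A A]
    [SMulCommClass K A A] (h : Satisfies (Ident K (A4 K)) A) : Good A :=
  good_of fun f hf => h f (sub_ident hf)

theorem psi_lift {B : Type u} [NonUnitalNonAssocRing B] [Module K B] [IsScalarTower K B B]
    [SMulCommClass K B B] (hB : Good B) (b : ℕ → B) (a : ℕ → NF K) (f : FreeAlg K) :
    psi K b (lift K a f) = lift K (fun i => psi K b (a i)) f :=
  lift_comp (psiHom hB b) a f

theorem psi_lift_X {B : Type u} [NonUnitalNonAssocRing B] [Module K B] [IsScalarTower K B B]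
    [SMulCommClass K B B] (hB : Good B) (b : ℕ → B) (f : FreeAlg K) :
    psi K b (lift K (X K) f) = lift K b f := by
  rw [psi_lift hB]
  congr 2
  funext i
  exact psi_X b i

/-- identities of `A4` are the kernel of the map to `NF` -/
theorem mem_ident_iff [Infinite K] (f : FreeAlg K) :
    f ∈ Ident K (A4 K) ↔ lift K (X K) f = 0 := by
  constructor
  · intro h
    apply inj
    intro a
    rw [psi_lift_X A4_good, h a]
  · intro h a
    rw [← psi_lift_X A4_good, h, map_zero]

theorem satisfies_ident_of_good [Infinite K] {A : Type u} [NonUnitalNonAssocRing A] [Module K A]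
    [IsScalarTower K A A] [SMulCommClass K A A] (h : Good A) :
    Satisfies (Ident K (A4 K)) A := by
  intro f hf a
  rw [← psi_lift_X h, (mem_ident_iff f).1 hf, map_zero]

theorem bas_cons (i j k : ℕ) (M : Multiset ℕ) :
    (bas (Sum.inr (i, j, k ::ₘ M)) : NF K) = bas (Sum.inr (i, j, M)) * X K k := by
  rw [X, bas_mul_bas]; rfl

theorem bas_zero (i j : ℕ) :
    (bas (Sum.inr (i, j, 0)) : NF K) = X K i * X K j := by
  rw [X, X, bas_mul_bas]; rfl

theorem hom_unique {A : Type u} [NonUnitalNonAssocRing A] [Module K A] [IsScalarTower K A A]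
    [SMulCommClass K A A] {φ ψ : NF K →ₙₐ[K] A} (h : ∀ i, φ (X K i) = ψ (X K i)) : φ = ψ := by
  have key : ∀ m, φ (bas m) = ψ (bas m) := by
    intro m
    match m with
    | Sum.inl i => exact h i
    | Sum.inr (i, j, M) =>
      induction M using Multiset.induction_on with
      | empty => rw [bas_zero, map_mul, map_mul, h, h]
      | cons k M ih => rw [bas_cons, map_mul, map_mul, ih, h]
  apply NonUnitalAlgHom.ext
  intro x
  refine NF_induction (P := fun a => φ a = ψ a) ?_ ?_ ?_ x
  · simp
  · intro a b ha hb; rw [map_add, map_add, ha, hb]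
  · intro c m; rw [map_smul, map_smul, key]

theorem relFree [Infinite K] : IsRelFree (Ident K (A4 K)) (X K) := by
  refine ⟨satisfies_ident_of_good NF_good, ?_⟩
  intro A _ _ _ _ hA a
  have hg := good_of_ident hA
  refine ⟨psiHom hg a, fun i => ?_, ?_⟩
  · rw [psiHom_apply, psi_X]
  · intro φ hφ
    apply hom_unique
    intro i
    rw [hφ, psiHom_apply, psi_X]

theorem X_mem_Fd {d i : ℕ} (h : i < d) : X K i ∈ Fd K (X K) d :=
  NonUnitalAlgebra.subset_adjoin K ⟨i, h, rfl⟩

theorem lift_sub {A : Type u} [NonUnitalNonAssocRing A] [Module K A]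
    [IsScalarTower K A A] [SMulCommClass K A A] (S : NonUnitalSubalgebra K A) (a : ℕ → S)
    (f : FreeAlg K) : ((lift K a f : S) : A) = lift K (fun i => (a i : A)) f :=
  lift_comp (NonUnitalSubalgebraClass.subtype S) a f

theorem finiteBaseRank [Infinite K] : HasFiniteBaseRank (Ident K (A4 K)) (X K) := by
  refine ⟨4, fun f hf A _ _ _ _ hA => ?_⟩
  have hfA : f ∈ Ident K (A4 K) := by
    intro a
    let e : ℕ → A4 K := fun k c => if (c : ℕ) = k then 1 else 0
    let y : ℕ → Fd K (X K) 4 := fun i =>
      a i 0 • ⟨X K 0, X_mem_Fd (by norm_num)⟩ + a i 1 • ⟨X K 1, X_mem_Fd (by norm_num)⟩ +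
      a i 2 • ⟨X K 2, X_mem_Fd (by norm_num)⟩ + a i 3 • ⟨X K 3, X_mem_Fd (by norm_num)⟩
    have h1 : lift K y f = 0 := hf f rfl y
    have h2 := congrArg (fun z : Fd K (X K) 4 => psi K e (z : NF K)) h1
    simp only [ZeroMemClass.coe_zero, map_zero] at h2
    rw [lift_sub, psi_lift A4_good] at h2
    have h3 : (fun i => psi K e ((y i : Fd K (X K) 4) : NF K)) = a := by
      funext i
      show psi K e (a i 0 • X K 0 + a i 1 • X K 1 + a i 2 • X K 2 + a i 3 • X K 3) = a i
      rw [map_add, map_add, map_add, map_smul, map_smul, map_smul, map_smul, psi_X, psi_X, psi_X,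
        psi_X]
      apply A4_ext
      intro c
      simp only [A4_add, A4_smul]
      fin_cases c <;> simp [e]
    rw [h3] at h2
    exact h2
  intro g hg a
  rw [Set.mem_singleton_iff] at hg
  subst hg
  exact hA g hfA a

end

end Pool.Agent.H340R3.TSp
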