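import Pool.Agent.H340R3.TSp.Rel

/-! A T-space in `F(2)` without a finite base. -/

namespace Pool.Agent.H340R3.TSp

universe u

section General

variable {K : Type u} [Field K] {F : Type u} [NonUnitalNonAssocRing F] [Module K F]
  [IsScalarTower K F F] [SMulCommClass K F F]

theorem subset_bar (S : Set F) : S ⊆ bar K S := by
  intro f hf
  exact Submodule.subset_span ⟨f, hf, NonUnitalAlgHom.id K F, rfl⟩

theorem bar_mono {S T : Set F} (h : S ⊆ T) : bar K S ≤ bar K T := by
  apply Submodule.span_mono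
  rintro y ⟨f, hf, φ, rfl⟩
  exact ⟨f, h hf, φ, rfl⟩

theorem map_bar (S : Set F) (φ : F →ₙₐ[K] F) {y : F} (hy : y ∈ bar K S) : φ y ∈ bar K S := by
  refine Submodule.span_induction (p := fun y _ => φ y ∈ bar K S) ?_ ?_ ?_ ?_ hy
  · rintro y ⟨f, hf, ψ, rfl⟩
    exact Submodule.subset_span ⟨f, hf, φ.comp ψ, rfl⟩
  · rw [map_zero]; exact zero_mem _
  · intro a b _ _ ha hb; rw [map_add]; exact add_mem ha hb
  · intro c a _ ha; rw [map_smul]; exact Submodule.smul_mem _ _ ha

theorem bar_bar (S : Set F) : bar K (bar K S : Set F) = bar K S := by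
  apply le_antisymm
  · rw [bar, Submodule.span_le]
    rintro y ⟨f, hf, φ, rfl⟩
    exact map_bar S φ hf
  · exact subset_bar _

/-- the T-space of `F(d)` generated by a set -/
def gen (x : ℕ → F) (d : ℕ) (S : Set F) : Submodule K F :=
  bar K S ⊓ (Fd K x d).toSubmodule

theorem gen_isTSpace (x : ℕ → F) (d : ℕ) (S : Set F) : IsTSpace x d (gen (K := K) x d S) := by
  refine ⟨inf_le_right, le_antisymm ?_ ?_⟩
  · exact le_inf (subset_bar _) inf_le_right
  · refine inf_le_inf_right _ ?_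
    calc bar K (gen (K := K) x d S : Set F) ≤ bar K (bar K S : Set F) :=
          bar_mono (fun y hy => hy.1)
      _ = bar K S := bar_bar S

theorem img_mono (f : ℕ → F) {N M : ℕ} (h : N ≤ M) :
    f '' {n | n ≤ N} ⊆ f '' {n | n ≤ M} := by
  rintro y ⟨n, hn, rfl⟩
  have hn' : n ≤ N := hn
  exact ⟨n, (le_trans hn' h : n ≤ M), rfl⟩

theorem bar_iUnion_mem (f : ℕ → F) {y : F} (hy : y ∈ bar K (Set.range f)) :
    ∃ N, y ∈ bar K (f '' {n | n ≤ N}) := by
  refine Submodule.span_induction (p := fun y _ => ∃ N, y ∈ bar K (f '' {n | n ≤ N}))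
    ?_ ?_ ?_ ?_ hy
  · rintro y ⟨_, ⟨n, rfl⟩, φ, rfl⟩
    exact ⟨n, Submodule.subset_span ⟨f n, ⟨n, by simp, rfl⟩, φ, rfl⟩⟩
  · exact ⟨0, zero_mem _⟩
  · rintro a b _ _ ⟨N, hN⟩ ⟨M, hM⟩
    refine ⟨max N M, add_mem (bar_mono (img_mono f (le_max_left _ _)) hN)
      (bar_mono (img_mono f (le_max_right _ _)) hM)⟩
  · rintro c a _ ⟨N, hN⟩
    exact ⟨N, Submodule.smul_mem _ _ hN⟩

theorem finset_mem (f : ℕ → F) (S : Finset F) (h : ∀ y ∈ S, y ∈ bar K (Set.range f)) :
    ∃ N, (S : Set F) ⊆ bar K (f '' {n | n ≤ N}) := by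
  classical
  induction S using Finset.induction_on with
  | empty => exact ⟨0, by simp⟩
  | insert a S _ ih =>
    obtain ⟨N, hN⟩ := ih (fun y hy => h y (Finset.mem_insert_of_mem hy))
    obtain ⟨M, hM⟩ := bar_iUnion_mem f (h a (Finset.mem_insert_self _ _))
    refine ⟨max N M, ?_⟩
    intro y hy
    rw [Finset.mem_coe, Finset.mem_insert] at hy
    rcases hy with rfl | hy
    · exact bar_mono (img_mono f (le_max_right N M)) hM
    · exact bar_mono (img_mono f (le_max_left N M)) (hN hy)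

/-- a strictly increasing sequence of T-spaces gives a T-space without a finite base -/
theorem not_finite_base (x : ℕ → F) (d : ℕ) (f : ℕ → F) (hf : ∀ n, f n ∈ Fd K x d)
    (h : ∀ N, f (N + 1) ∉ bar K (f '' {n | n ≤ N})) :
    ¬ HasFiniteBase x d (gen (K := K) x d (Set.range f)) := by
  rintro ⟨S, hS, hV⟩
  obtain ⟨N, hN⟩ := finset_mem (K := K) f S (fun y hy => (hS hy).1)
  apply h N
  have h1 : f (N + 1) ∈ gen (K := K) x d (Set.range f) :=
    ⟨subset_bar _ ⟨N + 1, rfl⟩, hf _⟩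
  rw [hV] at h1
  have h2 := bar_mono (K := K) hN h1.1
  rw [bar_bar] at h2
  exact h2

end General

section Particular

variable {K : Type u} [Field K]

/-- `f n (x, y) = (((x y) x - (x x) y) x) ⋯ x` with `n` further factors `x` -/
noncomputable def fn (K : Type u) [Field K] : ℕ → NF K
  | 0 => (X K 0 * X K 1) * X K 0 - (X K 0 * X K 0) * X K 1
  | n + 1 => fn K n * X K 0

theorem fn_mem (n : ℕ) : fn K n ∈ Fd K (X K) 2 := by
  have h0 : X K 0 ∈ Fd K (X K) 2 := X_mem_Fd (by norm_num)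
  have h1 : X K 1 ∈ Fd K (X K) 2 := X_mem_Fd (by norm_num)
  induction n with
  | zero => exact sub_mem (mul_mem (mul_mem h0 h1) h0) (mul_mem (mul_mem h0 h0) h1)
  | succ n ih => exact mul_mem ih h0

/-- degree one part: linear forms -/
theorem lin_psi (u : NF K) (i : Fin 4) (hi : i ≠ 0) (t : K) (a : ℕ → A4 K) :
    (psi K (fun k => t • a k) u) i = t * (psi K a u) i := by
  have : (coord i).comp (psi K (fun k => t • a k)) = t • (coord i).comp (psi K a) := by
    apply hom_ext_bas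
    intro m
    rw [LinearMap.comp_apply, LinearMap.smul_apply, LinearMap.comp_apply, psi_bas, psi_bas]
    match m with
    | Sum.inl k => rfl
    | Sum.inr (k, l, M) =>
      show (val (fun k => t • a k) (Sum.inr (k, l, M))) i = t • (val a (Sum.inr (k, l, M))) i
      rw [(val_A4 _ k l M).2 i hi, (val_A4 a k l M).2 i hi, smul_zero]
  have h2 := congrArg (fun f => f u) this
  exact h2

theorem A4_sub (x y : A4 K) (i : Fin 4) : (x - y) i = x i - y i := rfl

theorem A4_val (u v : A4 K) :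
    ((u * v) * u - (u * u) * v) 0 = u 1 * (v 2 * u 3 - u 2 * v 3) := by
  simp only [A4_sub, A4_mul]
  simp
  ring

theorem fn_coord (n : ℕ) (φ : NF K →ₙₐ[K] NF K) (a : ℕ → A4 K) :
    (psi K a (φ (fn K n))) 1 = 0 := by
  cases n with
  | zero =>
    simp only [fn, map_sub, map_mul, psi_mul A4_good]
    simp only [A4_sub, A4_mul]
    simp
  | succ n =>
    rw [fn, map_mul, psi_mul A4_good, A4_mul, if_neg (by decide)]

/-- value of the image of `f n` under an endomorphism -/
theorem fn_value (n : ℕ) (φ : NF K →ₙₐ[K] NF K) (a : ℕ → A4 K) :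
    (psi K a (φ (fn K n))) 0 = ((psi K a (φ (X K 0))) 1 * ((psi K a (φ (X K 1))) 2 *
      (psi K a (φ (X K 0))) 3 - (psi K a (φ (X K 0))) 2 * (psi K a (φ (X K 1))) 3)) *
      (psi K a (φ (X K 0))) 3 ^ n := by
  induction n with
  | zero =>
    have h1 : psi K a (φ (fn K 0)) = (psi K a (φ (X K 0)) * psi K a (φ (X K 1))) *
        psi K a (φ (X K 0)) - (psi K a (φ (X K 0)) * psi K a (φ (X K 0))) *
        psi K a (φ (X K 1)) := by
      simp only [fn, map_sub, map_mul, psi_mul A4_good]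
    rw [h1, A4_val, pow_zero, mul_one]
  | succ n ih =>
    rw [fn, map_mul, psi_mul A4_good, A4_mul, if_pos rfl, ih, fn_coord]
    ring

theorem fn_value' (n : ℕ) (φ : NF K →ₙₐ[K] NF K) (t : K) (a : ℕ → A4 K) :
    (psi K (fun k => t • a k) (φ (fn K n))) 0 = t ^ (n + 3) * (psi K a (φ (fn K n))) 0 := by
  rw [fn_value, fn_value, lin_psi _ _ (by decide), lin_psi _ _ (by decide),
    lin_psi _ _ (by decide), lin_psi _ _ (by decide), lin_psi _ _ (by decide)]
  ring

/-- elements of the T-space generated by `f 0, ..., f N` are polynomial of degree `≤ N + 3` -/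
theorem poly_of_mem (N : ℕ) {y : NF K} (hy : y ∈ bar K (fn K '' {n | n ≤ N})) (a : ℕ → A4 K) :
    ∃ p : Polynomial K, p.natDegree ≤ N + 3 ∧
      ∀ t, (psi K (fun k => t • a k) y) 0 = p.eval t := by
  refine Submodule.span_induction (p := fun y _ => ∃ p : Polynomial K, p.natDegree ≤ N + 3 ∧
      ∀ t, (psi K (fun k => t • a k) y) 0 = p.eval t) ?_ ?_ ?_ ?_ hy
  · rintro y ⟨_, ⟨n, hn, rfl⟩, φ, rfl⟩
    have hn' : n ≤ N := hn
    refine ⟨Polynomial.C ((psi K a (φ (fn K n))) 0) * Polynomial.X ^ (n + 3), ?_, fun t => ?_⟩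
    · exact le_trans (Polynomial.natDegree_C_mul_X_pow_le _ _) (by omega)
    · rw [fn_value', Polynomial.eval_mul, Polynomial.eval_C, Polynomial.eval_pow,
        Polynomial.eval_X, mul_comm]
  · refine ⟨0, by simp, fun t => ?_⟩
    rw [map_zero, Polynomial.eval_zero]; rfl
  · rintro y z _ _ ⟨p, hp, hp'⟩ ⟨q, hq, hq'⟩
    refine ⟨p + q, (Polynomial.natDegree_add_le _ _).trans (max_le hp hq), fun t => ?_⟩
    rw [map_add, A4_add, hp', hq', Polynomial.eval_add]
  · rintro c y _ ⟨p, hp, hp'⟩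
    refine ⟨Polynomial.C c * p, (Polynomial.natDegree_C_mul_le _ _).trans hp, fun t => ?_⟩
    rw [map_smul, A4_smul, hp', Polynomial.eval_mul, Polynomial.eval_C]

theorem fn_not_mem [Infinite K] (N : ℕ) : fn K (N + 1) ∉ bar K (fn K '' {n | n ≤ N}) := by
  intro h
  let a : ℕ → A4 K := fun k c =>
    if k = 0 then (if c = 1 ∨ c = 3 then 1 else 0) else (if c = 2 then 1 else 0)
  obtain ⟨p, hp, hp'⟩ := poly_of_mem N h a
  have h1 : ∀ t, p.eval t = t ^ (N + 4) := by
    intro t
    rw [← hp', show fn K (N + 1) = NonUnitalAlgHom.id K (NF K) (fn K (N + 1)) from rfl,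
      fn_value', fn_value]
    have e0 : (psi K a (NonUnitalAlgHom.id K (NF K) (X K 0))) = a 0 := psi_X a 0
    have e1 : (psi K a (NonUnitalAlgHom.id K (NF K) (X K 1))) = a 1 := psi_X a 1
    rw [e0, e1]
    have f1 : a 0 1 = 1 := by simp [a]
    have f2 : a 1 2 = 1 := by simp [a]
    have f3 : a 0 3 = 1 := by simp [a]
    have f4 : a 0 2 = 0 := by simp [a]
    rw [f1, f2, f3, f4]
    ring
  have h2 : p = Polynomial.X ^ (N + 4) := by
    apply Polynomial.funext
    intro t
    rw [h1, Polynomial.eval_pow, Polynomial.eval_X]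
  rw [h2, Polynomial.natDegree_X_pow] at hp
  omega

theorem exists_tspace [Infinite K] :
    ∃ V : Submodule K (NF K), IsTSpace (X K) 2 V ∧ ¬ HasFiniteBase (X K) 2 V :=
  ⟨gen (X K) 2 (Set.range (fn K)), gen_isTSpace _ _ _,
    not_finite_base _ _ _ fn_mem fn_not_mem⟩

end Particular

end Pool.Agent.H340R3.TSp
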