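import Pool.Agent.H340R3.TSp.Rel

/-! The variety generated by `A4` is Specht: a Groebner basis argument with Higman's lemma. -/

namespace Pool.Agent.H340R3.TSp

universe u

open FreeNonUnitalNonAssocAlgebra (lift)

/-! ### monomials -/

/-- renaming of variables -/
def ren (π : ℕ → ℕ) : Mon → Mon
  | Sum.inl i => Sum.inl (π i)
  | Sum.inr (i, j, M) => Sum.inr (π i, π j, M.map π)

/-- right multiplication by a variable -/
def mulx (k : ℕ) : Mon → Mon
  | Sum.inl i => Sum.inr (i, k, 0)
  | Sum.inr (i, j, M) => Sum.inr (i, j, k ::ₘ M)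

inductive Reach (m : Mon) : Mon → Prop
  | base (π : ℕ → ℕ) (h : StrictMono π) : Reach m (ren π m)
  | step (k : ℕ) (m' : Mon) (h : Reach m m') : Reach m (mulx k m')

/-- multiplicities -/
def cnt : Mon → ℕ → ℕ × ℕ × ℕ
  | Sum.inl i, k => (if k = i then 1 else 0, 0, 0)
  | Sum.inr (i, j, M), k => (if k = i then 1 else 0, if k = j then 1 else 0, M.count k)

def bound : Mon → ℕ
  | Sum.inl i => i + 1
  | Sum.inr (i, j, M) => i + j + M.sum + 1

def enc (m : Mon) : List (ℕ × ℕ × ℕ) := (List.range (bound m)).map (cnt m)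

theorem reach_mul (m : Mon) (i j : ℕ) (M M' : Multiset ℕ) (h : Reach m (Sum.inr (i, j, M))) :
    Reach m (Sum.inr (i, j, M' + M)) := by
  induction M' using Multiset.induction_on with
  | empty => simpa using h
  | cons k M' ih =>
    rw [Multiset.cons_add]
    exact Reach.step k _ ih

/-- extend an order embedding of initial segments -/
theorem exists_extend {a b : ℕ} (f : Fin a ↪o Fin b) :
    ∃ π : ℕ → ℕ, StrictMono π ∧ ∀ k (hk : k < a), π k = (f ⟨k, hk⟩ : ℕ) := by
  refine ⟨fun k => if hk : k < a then (f ⟨k, hk⟩ : ℕ) else b + k, ?_, ?_⟩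
  · intro k l hkl
    by_cases hk : k < a
    · by_cases hl : l < a
      · simp only [dif_pos hk, dif_pos hl]
        exact f.strictMono (show (⟨k, hk⟩ : Fin a) < ⟨l, hl⟩ from hkl)
      · simp only [dif_pos hk, dif_neg hl]
        have := (f ⟨k, hk⟩).2
        omega
    · have hl : ¬ l < a := by omega
      simp only [dif_neg hk, dif_neg hl]
      omega
  · intro k hk
    simp only [dif_pos hk]

theorem reach_of_cnt {π : ℕ → ℕ} (hπ : StrictMono π) : ∀ (m m' : Mon)
    (_ : ∀ k < bound m, cnt m k ≤ cnt m' (π k)), Reach m m' := by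
  rintro (i | ⟨i, j, M⟩) (i' | ⟨i', j', M'⟩) key
  · have h := (key i (by simp [bound])).1
    have hi : π i = i' := by
      by_contra hne
      simp [cnt, hne] at h
    rw [← hi]
    exact Reach.base π hπ
  · have h := (key i (by simp [bound])).1
    have hi : π i = i' := by
      by_contra hne
      simp [cnt, hne] at h
    have h7 : Reach (Sum.inl i) (Sum.inr (i', j', 0)) := by
      rw [← hi]
      exact Reach.step j' _ (Reach.base π hπ)
    simpa using reach_mul _ i' j' 0 M' h7
  · have h := (key j (by simp only [bound]; omega)).2.1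
    simp [cnt] at h
  · have hi : π i = i' := by
      have h := (key i (by simp only [bound]; omega)).1
      by_contra hne
      simp [cnt, hne] at h
    have hj : π j = j' := by
      have h := (key j (by simp only [bound]; omega)).2.1
      by_contra hne
      simp [cnt, hne] at h
    have hM : M.map π ≤ M' := by
      rw [Multiset.le_iff_count]
      intro k'
      by_cases hk : k' ∈ M.map π
      · rw [Multiset.mem_map] at hk
        obtain ⟨k, hk, rfl⟩ := hk
        rw [Multiset.count_map_eq_count' π M hπ.injective]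
        have hk3 : k ≤ M.sum := Multiset.le_sum_of_mem hk
        exact (key k (by simp only [bound]; omega)).2.2
      · rw [Multiset.count_eq_zero_of_notMem hk]
        exact Nat.zero_le _
    obtain ⟨N, rfl⟩ := Multiset.le_iff_exists_add.1 hM
    rw [← hi, ← hj, add_comm]
    exact reach_mul _ _ _ _ N (Reach.base π hπ)

theorem reach_of_sublist {m m' : Mon}
    (h : List.SublistForall₂ (· ≤ ·) (enc m) (enc m')) : Reach m m' := by
  rw [List.sublistForall₂_iff] at h
  obtain ⟨l, h1, h2⟩ := h
  rw [List.sublist_iff_exists_fin_orderEmbedding_get_eq] at h2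
  obtain ⟨f, hf⟩ := h2
  rw [List.forall₂_iff_get] at h1
  obtain ⟨hlen, h1⟩ := h1
  have hb : (enc m).length = bound m := by simp [enc]
  have hb' : (enc m').length = bound m' := by simp [enc]
  -- embedding
  let e1 : Fin (bound m) ↪o Fin l.length := (Fin.castOrderIso (by rw [← hb, hlen])).toOrderEmbedding
  let e2 : Fin (enc m').length ↪o Fin (bound m') := (Fin.castOrderIso hb').toOrderEmbedding
  let g : Fin (bound m) ↪o Fin (bound m') := (e1.trans f).trans e2
  obtain ⟨π, hπ, hg⟩ := exists_extend g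
  apply reach_of_cnt hπ
  intro k hk
  have hk1 : k < (enc m).length := by rw [hb]; exact hk
  have hk2 : k < l.length := by rw [← hlen]; exact hk1
  have h3 := h1 k hk1 hk2
  have h4 := hf ⟨k, hk2⟩
  have h5 : (enc m).get ⟨k, hk1⟩ = cnt m k := by simp [enc]
  rw [h5, h4] at h3
  have h6 : (enc m').get (f ⟨k, hk2⟩) = cnt m' (f ⟨k, hk2⟩ : ℕ) := by simp [enc]
  rw [h6] at h3
  rw [hg k hk]
  exact h3

theorem seq_reach (f : ℕ → Mon) : ∃ a b, a < b ∧ Reach (f a) (f b) := by
  have h0 : (Set.univ : Set (ℕ × ℕ × ℕ)).PartiallyWellOrderedOn (· ≤ ·) :=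
    Set.isPWO_of_wellQuasiOrderedLE _
  have h := Set.PartiallyWellOrderedOn.partiallyWellOrderedOn_sublistForall₂ (· ≤ ·) h0
  obtain ⟨a, b, hab, h1⟩ := h.exists_lt (f := fun n => enc (f n)) (fun n => by simp)
  exact ⟨a, b, hab, reach_of_sublist h1⟩

theorem exists_finite_basis (L : Set Mon) :
    ∃ s : Finset Mon, (s : Set Mon) ⊆ L ∧ ∀ m ∈ L, ∃ m0 ∈ s, Reach m0 m := by
  classical
  by_contra hcon
  push Not at hcon
  obtain ⟨f, hf, hf'⟩ := exists_seq_of_forall_finset_exists (fun m => m ∈ L)
    (fun m m' => ¬ Reach m m') (fun s hs => by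
      obtain ⟨m, hm, h⟩ := hcon s (fun x hx => hs x hx)
      exact ⟨m, hm, h⟩)
  obtain ⟨a, b, hab, h⟩ := seq_reach f
  exact hf' a b hab h

/-! ### the monomial order -/

/-- multidegree -/
noncomputable def mdeg : Mon → (ℕ →₀ ℕ)
  | Sum.inl i => Finsupp.single i 1
  | Sum.inr (i, j, M) => Finsupp.single i 1 + Finsupp.single j 1 + Multiset.toFinsupp M

/-- tie break -/
def tie : Mon → ℕ ×ₗ ℕ
  | Sum.inl _ => toLex (0, 0)
  | Sum.inr (i, j, _) => toLex (i, j)

noncomputable def key (m : Mon) : Colex (ℕ →₀ ℕ) ×ₗ (ℕ ×ₗ ℕ) := toLex (toColex (mdeg m), tie m)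

theorem mdeg_total_inl (i : ℕ) : (mdeg (Sum.inl i)).sum (fun _ n => n) = 1 := by
  rw [mdeg, Finsupp.sum_single_index rfl]

theorem mdeg_total_inr (i j : ℕ) (M : Multiset ℕ) :
    2 ≤ (mdeg (Sum.inr (i, j, M))).sum (fun _ n => n) := by
  rw [mdeg, Finsupp.sum_add_index' (fun _ => rfl) (fun _ _ _ => rfl),
    Finsupp.sum_add_index' (fun _ => rfl) (fun _ _ _ => rfl), Finsupp.sum_single_index rfl,
    Finsupp.sum_single_index rfl]
  omega

theorem mdeg_ne (i k l : ℕ) (M : Multiset ℕ) : mdeg (Sum.inl i) ≠ mdeg (Sum.inr (k, l, M)) := by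
  intro h
  have h1 := mdeg_total_inl i
  have h2 := mdeg_total_inr k l M
  rw [h] at h1
  omega

theorem key_injective : Function.Injective key := by
  intro m m' h
  rw [key, key] at h
  have h' := congrArg ofLex h
  simp only [ofLex_toLex, Prod.mk.injEq] at h'
  obtain ⟨h1, h2⟩ := h'
  have h1 : mdeg m = mdeg m' := h1
  match m, m' with
  | Sum.inl i, Sum.inl j =>
    rw [mdeg, mdeg] at h1
    rw [Finsupp.single_left_inj one_ne_zero] at h1
    rw [h1]
  | Sum.inl i, Sum.inr (k, l, M) => exact absurd h1 (mdeg_ne _ _ _ _)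
  | Sum.inr (k, l, M), Sum.inl i => exact absurd h1.symm (mdeg_ne _ _ _ _)
  | Sum.inr (i, j, M), Sum.inr (k, l, N) =>
    have h3 : (i, j) = (k, l) := congrArg ofLex h2
    simp only [Prod.mk.injEq] at h3
    obtain ⟨rfl, rfl⟩ := h3
    rw [mdeg, mdeg] at h1
    have h4 := Multiset.toFinsupp.injective (add_left_cancel h1)
    rw [h4]

theorem key_lt_iff (m m' : Mon) : key m < key m' ↔
    toColex (mdeg m) < toColex (mdeg m') ∨ (mdeg m = mdeg m' ∧ tie m < tie m') := by
  rw [key, key, Prod.Lex.toLex_lt_toLex]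
  simp

theorem mdeg_mulx (k : ℕ) (m : Mon) : mdeg (mulx k m) = mdeg m + Finsupp.single k 1 := by
  match m with
  | Sum.inl i => simp [mulx, mdeg]
  | Sum.inr (i, j, M) =>
    simp only [mulx, mdeg]
    rw [← Multiset.singleton_add, map_add, Multiset.toFinsupp_singleton]
    abel

theorem mdeg_ren (π : ℕ → ℕ) (m : Mon) :
    mdeg (ren π m) = Finsupp.mapDomain π (mdeg m) := by
  have hM : ∀ M : Multiset ℕ, Multiset.toFinsupp (M.map π) =
      Finsupp.mapDomain π (Multiset.toFinsupp M) := by
    intro M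
    induction M using Multiset.induction_on with
    | empty => simp
    | cons k M ih =>
      rw [Multiset.map_cons, ← Multiset.singleton_add, map_add, ih, ← Multiset.singleton_add,
        map_add, Finsupp.mapDomain_add, Multiset.toFinsupp_singleton, Multiset.toFinsupp_singleton,
        Finsupp.mapDomain_single]
  match m with
  | Sum.inl i => simp [ren, mdeg, Finsupp.mapDomain_single]
  | Sum.inr (i, j, M) =>
    simp only [ren, mdeg, Finsupp.mapDomain_add, Finsupp.mapDomain_single, hM]

theorem key_mulx (k : ℕ) {m m' : Mon} (h : key m < key m') : key (mulx k m) < key (mulx k m') := by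
  rw [key_lt_iff] at h ⊢
  rcases h with h | ⟨h, h'⟩
  · left
    rw [mdeg_mulx, mdeg_mulx, toColex_add, toColex_add]
    exact add_lt_add_left h _
  · right
    refine ⟨by rw [mdeg_mulx, mdeg_mulx, h], ?_⟩
    match m, m' with
    | Sum.inl i, Sum.inl j => exact absurd h' (lt_irrefl _)
    | Sum.inl i, Sum.inr (k, l, M) => exact absurd h (mdeg_ne _ _ _ _)
    | Sum.inr (k, l, M), Sum.inl i => exact absurd h.symm (mdeg_ne _ _ _ _)
    | Sum.inr (i, j, M), Sum.inr (k, l, N) => exact h'

theorem colex_map (π : ℕ → ℕ) (hπ : StrictMono π) {a b : ℕ →₀ ℕ} (h : toColex a < toColex b) :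
    toColex (Finsupp.mapDomain π a) < toColex (Finsupp.mapDomain π b) := by
  rw [Finsupp.Colex.lt_iff] at h ⊢
  obtain ⟨i, h1, h2⟩ := h
  refine ⟨π i, ?_, ?_⟩
  · intro j hj
    show Finsupp.mapDomain π a j = Finsupp.mapDomain π b j
    by_cases hj' : j ∈ Set.range π
    · obtain ⟨k, rfl⟩ := hj'
      rw [Finsupp.mapDomain_apply hπ.injective, Finsupp.mapDomain_apply hπ.injective]
      exact h1 k (hπ.lt_iff_lt.1 hj)
    · rw [Finsupp.mapDomain_of_notMem_range _ _ hj', Finsupp.mapDomain_of_notMem_range _ _ hj']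
  · show Finsupp.mapDomain π a (π i) < Finsupp.mapDomain π b (π i)
    rw [Finsupp.mapDomain_apply hπ.injective, Finsupp.mapDomain_apply hπ.injective]
    exact h2

theorem key_ren (π : ℕ → ℕ) (hπ : StrictMono π) {m m' : Mon} (h : key m < key m') :
    key (ren π m) < key (ren π m') := by
  rw [key_lt_iff] at h ⊢
  rcases h with h | ⟨h, h'⟩
  · left
    rw [mdeg_ren π, mdeg_ren π]
    exact colex_map π hπ h
  · right
    refine ⟨by rw [mdeg_ren π, mdeg_ren π, h], ?_⟩
    match m, m' with
    | Sum.inl i, Sum.inl j => exact absurd h' (lt_irrefl _)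
    | Sum.inl i, Sum.inr (k, l, M) => exact absurd h (mdeg_ne _ _ _ _)
    | Sum.inr (k, l, M), Sum.inl i => exact absurd h.symm (mdeg_ne _ _ _ _)
    | Sum.inr (i, j, M), Sum.inr (k, l, N) =>
      have h3 : toLex (i, j) < toLex (k, l) := h'
      show toLex (π i, π j) < toLex (π k, π l)
      rw [Prod.Lex.toLex_lt_toLex] at h3 ⊢
      rcases h3 with h3 | ⟨h3, h4⟩
      · exact Or.inl (hπ h3)
      · exact Or.inr ⟨congrArg π h3, hπ h4⟩


/-! ### leading monomials -/

section

variable {K : Type u} [Field K]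

/-- coefficient -/
def co (g : NF K) (m : Mon) : K := (show Mon →₀ K from g) m

theorem co_sub (g h : NF K) (m : Mon) : co (g - h) m = co g m - co h m := rfl

theorem co_smul (c : K) (g : NF K) (m : Mon) : co (c • g) m = c * co g m := rfl

theorem co_ext {g h : NF K} (H : ∀ m, co g m = co h m) : g = h := Finsupp.ext H

/-- `m` is the leading monomial of `g` -/
def IsLM (g : NF K) (m : Mon) : Prop := co g m ≠ 0 ∧ ∀ m', co g m' ≠ 0 → key m' ≤ key m

theorem exists_LM {g : NF K} (hg : g ≠ 0) : ∃ m, IsLM g m := by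
  classical
  have hne : (show Mon →₀ K from g).support.Nonempty := by
    rw [Finsupp.support_nonempty_iff]; exact hg
  obtain ⟨m, hm, h⟩ := Finset.exists_max_image _ key hne
  exact ⟨m, Finsupp.mem_support_iff.1 hm, fun m' hm' => h m' (Finsupp.mem_support_iff.2 hm')⟩

/-- linear extension of a map of monomials -/
noncomputable def lin (T : Mon → Mon) : NF K →ₗ[K] NF K :=
  (Finsupp.lmapDomain K K T : (Mon →₀ K) →ₗ[K] (Mon →₀ K))

theorem lin_bas (T : Mon → Mon) (m : Mon) : lin T (bas m : NF K) = bas (T m) := by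
  rw [lin, bas, bas]
  exact Finsupp.mapDomain_single

theorem co_lin {T : Mon → Mon} (hT : Function.Injective T) (g : NF K) (m : Mon) :
    co (lin T g) (T m) = co g m := Finsupp.mapDomain_apply hT _ _

theorem co_lin_of_ne {T : Mon → Mon} (g : NF K) (m : Mon) (h : m ∉ Set.range T) :
    co (lin T g) m = 0 := Finsupp.mapDomain_of_notMem_range _ _ h

theorem isLM_lin {T : Mon → Mon} (hT : ∀ m m', key m < key m' → key (T m) < key (T m'))
    {g : NF K} {m : Mon} (h : IsLM g m) : IsLM (lin T g) (T m) := by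
  have hle : ∀ m m', key m ≤ key m' → key (T m) ≤ key (T m') := by
    intro m m' h
    rcases h.lt_or_eq with h | h
    · exact (hT _ _ h).le
    · rw [key_injective h]
  have hinj : Function.Injective T := by
    intro m m' h
    rcases lt_trichotomy (key m) (key m') with h1 | h1 | h1
    · have := hT _ _ h1; rw [h] at this; exact absurd this (lt_irrefl _)
    · exact key_injective h1
    · have := hT _ _ h1; rw [h] at this; exact absurd this (lt_irrefl _)
  refine ⟨by rw [co_lin hinj]; exact h.1, fun m' hm' => ?_⟩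
  by_cases hr : m' ∈ Set.range T
  · obtain ⟨m'', rfl⟩ := hr
    rw [co_lin hinj] at hm'
    exact hle _ _ (h.2 _ hm')
  · exact absurd (co_lin_of_ne g m' hr) hm'

theorem lin_mulx (k : ℕ) (g : NF K) : lin (mulx k) g = g * X K k := by
  refine NF_induction (P := fun g => lin (mulx k) g = g * X K k) ?_ ?_ ?_ g
  · simp
  · intro a b ha hb; rw [map_add, add_mul, ha, hb]
  · rintro c (i | ⟨i, j, M⟩)
    · rw [map_smul, lin_bas, smul_mul_assoc, mulx, bas_zero]; rfl
    · rw [map_smul, lin_bas, smul_mul_assoc, mulx, bas_cons]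

variable {B : Type u} [NonUnitalNonAssocRing B] [Module K B] [IsScalarTower K B B]
  [SMulCommClass K B B]

theorem psi_mulx (hB : Good B) (b : ℕ → B) (k : ℕ) (g : NF K) :
    psi K b (lin (mulx k) g) = psi K b g * b k := by
  rw [lin_mulx, psi_mul hB, psi_X]

theorem psi_ren (hB : Good B) (b : ℕ → B) (π : ℕ → ℕ) (g : NF K) :
    psi K b (lin (ren π) g) = psi K (b ∘ π) g := by
  have h : (psi K b).comp (lin (ren π)) = psi K (b ∘ π) := by
    apply hom_ext_bas
    rintro (i | ⟨i, j, M⟩)
    · rw [LinearMap.comp_apply, lin_bas, psi_bas, psi_bas]; rfl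
    · rw [LinearMap.comp_apply, lin_bas]
      induction M using Multiset.induction_on with
      | empty =>
        rw [ren, Multiset.map_zero, psi_bas, psi_bas]
        simp [val, lprod]
      | cons k M ih =>
        rw [ren] at ih ⊢
        rw [Multiset.map_cons, bas_cons, bas_cons, psi_mul hB, psi_mul hB, ih, psi_X, psi_X]
        rfl
  rw [← h]; rfl

/-- a subspace of `NF` stable under increasing renamings and multiplication by variables -/
def Stable (V : Submodule K (NF K)) : Prop :=
  (∀ π : ℕ → ℕ, StrictMono π → ∀ g ∈ V, lin (ren π) g ∈ V) ∧ ∀ k, ∀ g ∈ V, lin (mulx k) g ∈ V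

theorem exists_of_reach {V : Submodule K (NF K)} (hV : Stable V) {m m' : Mon} (h : Reach m m')
    {g : NF K} (hg : g ∈ V) (hm : IsLM g m) : ∃ g' ∈ V, IsLM g' m' := by
  induction h with
  | base π hπ => exact ⟨_, hV.1 π hπ g hg, isLM_lin (fun _ _ => key_ren π hπ) hm⟩
  | step k m' _ ih =>
    obtain ⟨g', hg', hm'⟩ := ih
    exact ⟨_, hV.2 k g' hg', isLM_lin (fun _ _ => key_mulx k) hm'⟩

/-- Groebner basis argument -/
theorem le_of_leading {V W : Submodule K (NF K)} (hVW : W ≤ V)
    (h : ∀ g ∈ V, ∀ m, IsLM g m → ∃ g' ∈ W, IsLM g' m) : V ≤ W := by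
  have key' : ∀ κ : Colex (ℕ →₀ ℕ) ×ₗ (ℕ ×ₗ ℕ), ∀ g ∈ V, ∀ m, IsLM g m → key m = κ → g ∈ W := by
    intro κ
    induction κ using WellFoundedLT.induction with
    | ind κ ih =>
      intro g hg m hm hκ
      obtain ⟨g', hg', hm'⟩ := h g hg m hm
      set c := co g m / co g' m with hc
      have h1 : g - c • g' ∈ V := sub_mem hg (Submodule.smul_mem _ _ (hVW hg'))
      have h2 : g - c • g' ∈ W := by
        by_cases h0 : g - c • g' = 0
        · rw [h0]; exact zero_mem _
        · obtain ⟨m1, hm1⟩ := exists_LM h0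
          refine ih (key m1) ?_ _ h1 m1 hm1 rfl
          rw [← hκ]
          have hne : m1 ≠ m := by
            rintro rfl
            apply hm1.1
            rw [co_sub, co_smul, hc, div_mul_cancel₀ _ hm'.1, sub_self]
          have hle : key m1 ≤ key m := by
            by_cases hg1 : co g m1 = 0
            · have hg2 : co g' m1 ≠ 0 := by
                intro hg2
                apply hm1.1
                rw [co_sub, co_smul, hg1, hg2]; ring
              exact hm'.2 _ hg2
            · exact hm.2 _ hg1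
          exact lt_of_le_of_ne hle (fun h => hne (key_injective h))
      have : g = (g - c • g') + c • g' := by abel
      rw [this]
      exact add_mem h2 (Submodule.smul_mem _ _ hg')
  intro g hg
  by_cases h0 : g = 0
  · rw [h0]; exact zero_mem _
  · obtain ⟨m, hm⟩ := exists_LM h0
    exact key' _ g hg m hm rfl

/-- the annihilator in `NF` of an algebra -/
def ann (K : Type u) [Field K] (B : Type u) [NonUnitalNonAssocRing B] [Module K B]
    [IsScalarTower K B B] [SMulCommClass K B B] : Submodule K (NF K) where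
  carrier := {g | ∀ b : ℕ → B, psi K b g = 0}
  add_mem' := by intro x y hx hy b; rw [map_add, hx, hy, add_zero]
  zero_mem' := by intro b; rw [map_zero]
  smul_mem' := by intro c x hx b; rw [map_smul, hx, smul_zero]

theorem ann_stable (hB : Good B) : Stable (ann K B) := by
  constructor
  · intro π _ g hg b
    rw [psi_ren hB]; exact hg _
  · intro k g hg b
    rw [psi_mulx hB, hg b, zero_mul]

/-- common annihilator of the algebras satisfying `J` -/
def annJ (J : Set (FreeAlg K)) : Submodule K (NF K) where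
  carrier := {g | ∀ (A : Type u) [NonUnitalNonAssocRing A] [Module K A] [IsScalarTower K A A]
    [SMulCommClass K A A], Satisfies J A → ∀ b : ℕ → A, psi K b g = 0}
  add_mem' := by intro x y hx hy A _ _ _ _ hA b; rw [map_add, hx A hA, hy A hA, add_zero]
  zero_mem' := by intro A _ _ _ _ hA b; rw [map_zero]
  smul_mem' := by intro c x hx A _ _ _ _ hA b; rw [map_smul, hx A hA, smul_zero]

theorem annJ_stable {J : Set (FreeAlg K)} (hJ : Ident K (A4 K) ⊆ J) : Stable (annJ J) := by
  constructor
  · intro π _ g hg A _ _ _ _ hA b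
    have hgood : Good A := good_of_ident fun f hf => hA f (hJ hf)
    rw [psi_ren hgood]; exact hg A hA _
  · intro k g hg A _ _ _ _ hA b
    have hgood : Good A := good_of_ident fun f hf => hA f (hJ hf)
    rw [psi_mulx hgood, hg A hA b, zero_mul]

theorem exists_lift (g : NF K) : ∃ f : FreeAlg K, lift K (X K) f = g := by
  refine NF_induction (P := fun g => ∃ f : FreeAlg K, lift K (X K) f = g) ?_ ?_ ?_ g
  · exact ⟨0, map_zero _⟩
  · rintro a b ⟨f, rfl⟩ ⟨f', rfl⟩
    exact ⟨f + f', map_add _ _ _⟩
  · intro c m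
    have : ∃ f : FreeAlg K, lift K (X K) f = bas m := by
      rcases m with i | ⟨i, j, M⟩
      · exact ⟨fv K i, lift_fv _ _⟩
      · induction M using Multiset.induction_on with
        | empty => exact ⟨fv K i * fv K j, by rw [map_mul, lift_fv, lift_fv, bas_zero]⟩
        | cons k M ih =>
          obtain ⟨f, hf⟩ := ih
          exact ⟨f * fv K k, by rw [map_mul, lift_fv, hf, bas_cons]⟩
    obtain ⟨f, hf⟩ := this
    exact ⟨c • f, by rw [map_smul, hf]⟩

theorem specht [Infinite K] : IsSpecht (Ident K (A4 K)) := by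
  classical
  intro J hJ
  obtain ⟨s, hs, hs'⟩ := exists_finite_basis {m | ∃ g ∈ annJ J, IsLM g m}
  have hg : ∀ m : Mon, ∃ f : FreeAlg K, m ∈ s →
      (lift K (X K) f ∈ annJ J ∧ IsLM (lift K (X K) f) m) := by
    intro m
    by_cases hm : m ∈ s
    · obtain ⟨g, hg, hm'⟩ := hs hm
      obtain ⟨f, rfl⟩ := exists_lift g
      exact ⟨f, fun _ => ⟨hg, hm'⟩⟩
    · exact ⟨0, fun h => absurd h hm⟩
  choose f hf using hg
  refine ⟨{id1 K, id2 K} ∪ s.image f, ?_⟩
  intro A _ _ _ _
  constructor
  · intro hA
    have hgood : Good A := good_of_ident fun f hf => hA f (hJ hf)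
    intro h hh a
    rw [Finset.mem_coe, Finset.mem_union] at hh
    rcases hh with hh | hh
    · apply good_iff.2 hgood h _ a
      simpa using hh
    · rw [Finset.mem_image] at hh
      obtain ⟨m, hm, rfl⟩ := hh
      rw [← psi_lift_X hgood]
      exact (hf m hm).1 A hA a
  · intro hA
    have hgood : Good A := good_of fun g hg => hA g (by
      rw [Finset.mem_coe, Finset.mem_union]; left; simpa using hg)
    have hle : annJ J ≤ annJ J ⊓ ann K A := by
      apply le_of_leading inf_le_left
      intro g hg m hm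
      obtain ⟨m0, hm0, hr⟩ := hs' m ⟨g, hg, hm⟩
      have hstab : Stable (annJ J ⊓ ann K A) := by
        have h1 := annJ_stable hJ
        have h2 := ann_stable (K := K) hgood
        exact ⟨fun π hπ g hg => ⟨h1.1 π hπ g hg.1, h2.1 π hπ g hg.2⟩,
          fun k g hg => ⟨h1.2 k g hg.1, h2.2 k g hg.2⟩⟩
      refine exists_of_reach hstab hr (g := lift K (X K) (f m0)) ⟨(hf m0 hm0).1, ?_⟩ (hf m0 hm0).2
      intro b
      rw [psi_lift_X hgood]
      exact hA _ (by
        rw [Finset.mem_coe, Finset.mem_union]; right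
        exact Finset.mem_image_of_mem _ hm0) b
    intro h hh a
    have h1 : lift K (X K) h ∈ annJ J := by
      intro B _ _ _ _ hB b
      rw [psi_lift_X (good_of_ident fun f hf => hB f (hJ hf))]
      exact hB h hh b
    rw [← psi_lift_X hgood]
    exact (hle h1).2 a

end

end Pool.Agent.H340R3.TSp
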